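import Pool.Agent.Lib_helper93.Ins.NymB

set_option autoImplicit false
open MeasureTheory Filter Topology

namespace Pool.Agent.Results.MP_ed36af_an.NymanFails

/-- A weight on `[0, ∞)`: a continuous submultiplicative function with positive values. -/
structure IsWeight (ω : ℝ → ℝ) : Prop where
  continuousOn : ContinuousOn ω (Set.Ici 0)
  pos : ∀ t, 0 ≤ t → 0 < ω t
  submul : ∀ s t, 0 ≤ s → 0 ≤ t → ω (s + t) ≤ ω s * ω t

/-- The Banach space `L¹(ω)` of the classes of complex measurable functions `f` on `[0, ∞)` with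
`‖f‖ = ∫ |f(t)| ω(t) dt < ∞`, that is, the space `L¹` of the measure `ω(t) dt` on `[0, ∞)`. -/
abbrev L1 (ω : ℝ → ℝ) : Type :=
  Lp ℂ 1 ((volume.restrict (Set.Ici (0:ℝ))).withDensity fun t => ENNReal.ofReal (ω t))

/-- The truncated convolution `(f * g)(t) = ∫₀ᵗ f(t - s) g(s) ds`. -/
noncomputable def conv (f g : ℝ → ℂ) : ℝ → ℂ := fun t => ∫ s in (0:ℝ)..t, f (t - s) * g s

/-- The Laplace transform `∫₀^∞ f(t) exp(-zt) dt`. -/
noncomputable def laplace (f : ℝ → ℂ) (z : ℂ) : ℂ :=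
  ∫ t in Set.Ici (0:ℝ), f t * Complex.exp (-z * (t : ℂ))

/-- A closed ideal of the convolution algebra `L¹(ω)`: a closed linear subspace which contains
`f * g` for all `f` in the subspace and all `g` in `L¹(ω)`. -/
structure IsClosedIdeal (ω : ℝ → ℝ) (I : Submodule ℂ (L1 ω)) : Prop where
  closed : IsClosed (I : Set (L1 ω))
  conv_mem : ∀ f ∈ I, ∀ g : L1 ω,
    ∃ h ∈ I, (h : ℝ → ℂ) =ᵐ[volume.restrict (Set.Ici (0:ℝ))] conv f g

/-- **The Nyman-type theorem fails for semisimple weighted convolution algebras on the half-line.**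

There are a weight `ω ≥ 1` with `ω(t)^(1/t) → 1` (so that `L¹(ω)` is semisimple and its characters
are the evaluations of the Laplace transform in the closed half-plane `Re z ≥ 0`), a proper closed
ideal `I` of `L¹(ω)` and a function `f ∈ I` such that `0` is the infimum of the support of `f` and
the Laplace transform of `f` has no zero in the closed half-plane. In particular `α(I) = 0`,
`Z(I) = ∅` and `I ≠ L¹(ω)`, and the closed ideal generated by the single function `f` is proper. -/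
theorem result :
    ∃ ω : ℝ → ℝ, IsWeight ω ∧ (∀ t, 1 ≤ ω t) ∧
      Tendsto (fun t : ℝ => ω t ^ (1 / t)) atTop (𝓝 1) ∧
      (∀ f : L1 ω, (∀ z : ℂ, 0 ≤ z.re → laplace f z = 0) → f = 0) ∧
      ∃ I : Submodule ℂ (L1 ω), IsClosedIdeal ω I ∧ I ≠ ⊤ ∧
        ∃ f ∈ I, (∀ ε : ℝ, 0 < ε → ¬ ((f : ℝ → ℂ) =ᵐ[volume.restrict (Set.Icc (0:ℝ) ε)] 0)) ∧
          ∀ z : ℂ, 0 ≤ z.re → laplace f z ≠ 0 := by
  refine ⟨Pool.Agent.Nyman.om, ⟨Pool.Agent.Nyman.om_continuousOn,
    fun t _ => Pool.Agent.Nyman.om_pos t, fun s t hs ht => Pool.Agent.Nyman.om_submul hs ht⟩,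
    Pool.Agent.Nyman.one_le_om, Pool.Agent.Nyman.om_rpow_tendsto,
    fun f hf => Pool.Agent.Nyman.semisimple f hf, Pool.Agent.Nyman.III,
    ⟨Pool.Agent.Nyman.III_closed, fun f hf g => Pool.Agent.Nyman.III_conv hf g⟩,
    Pool.Agent.Nyman.III_ne_top, Pool.Agent.Nyman.cls _ Pool.Agent.Nyman.ff_intW,
    Pool.Agent.Nyman.cls_ff_mem, fun ε hε => Pool.Agent.Nyman.cls_ff_alpha ε hε,
    fun z hz => Pool.Agent.Nyman.cls_ff_laplace hz⟩

end Pool.Agent.Results.MP_ed36af_an.NymanFails
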